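import Pool.Graph.R_pool_sql_team_seeded_47a924f7.Results.MP_8301f5_an.KatoNotTwoDH

/-!
# An Orlicz space with the Kato property which is not disjointly homogeneous at all

The Orlicz space of the library module
`Pool.Graph.R_pool_sql_team_seeded_47a924f7.Results.MP_8301f5_an.KatoNotTwoDH` has the Kato
property. It is not only not 2-DH: it contains a normalized disjoint sequence equivalent to the unit
vector basis of `ℓ_2`, so it is not disjointly homogeneous (and not `p`-DH for any `p`).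
-/

set_option autoImplicit false

namespace Pool.Agent.Results.MP_8301f5_an.KatoNotDH

open MeasureTheory Set Filter Topology
open scoped ENNReal
open Pool.Agent.T6.H48.KP

open Pool.Agent.T6.H48.KP.ModEXKD in
/-- The concrete Orlicz function of the library module `EXKD` (same proof). -/
theorem exKD (hv : StmVV) (hd : StmDDIS) (hp : StmPHIB) (hf : StmF0G) :
    ∃ Φ : OrliczFun, KD Φ F0 D0 := by
  have hpos : ∀ h : ℝ, 0 < h → 0 < phi0 h := fun h hh =>
    lt_of_lt_of_le (by positivity) (hp.1 h hh).1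
  refine ⟨⟨phi0, hp.2.1, hp.2.2.1, hp.2.2.2.1, hp.2.2.2.2, 1, one_pos, (hpos 1 one_pos).ne'⟩, ?_⟩
  refine
    { Dmeas := ?_
      pos := hpos
      growth := ?_
      feat := ?_
      flat := ?_
      feats := ?_
      F_growth := hf.1
      osc_up := hf.2.1
      osc_dn := hf.2.2 }
  · have h1 : Continuous dd := Metric.continuous_infDist_pt _
    exact h1.measurable.comp Real.measurable_log
  · refine ⟨5 / 3, by norm_num, fun h a hh ha ha1 => ?_⟩
    have hy : 0 ≤ -Real.log a := by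
      have := Real.log_nonpos ha.le ha1
      linarith
    have hw := ww_diff hv hd (x := Real.log h) hy
    rw [← logmul hh ha] at hw
    rw [abs_le] at hw
    have e1 : Real.exp (-Real.log a / 2) = a ^ (-(1 / 2) : ℝ) := by
      rw [Real.rpow_def_of_pos ha]; congr 1; ring
    have e2 : Real.exp (Real.log a / 2) = a ^ (1 / 2 : ℝ) := by
      rw [Real.rpow_def_of_pos ha]; congr 1; ring
    constructor
    · have := up hp (C := 1) (G := a ^ (-(1 / 2) : ℝ)) hh ha zero_le_one
        (Real.rpow_nonneg ha.le _) (by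
          rw [one_mul, ← e1, ← Real.exp_add]
          exact Real.exp_le_exp.2 (by linarith [hw.2]))
      refine this.trans (le_of_eq ?_)
      have e3 : a ^ (3 / 2 : ℝ) = a ^ 2 * a ^ (-(1 / 2) : ℝ) := by
        rw [← Real.rpow_natCast a 2, ← Real.rpow_add ha]; norm_num
      rw [e3]; ring
    · have := dn hp (C := 1) (G := a ^ (1 / 2 : ℝ)) hh ha zero_le_one
        (Real.rpow_nonneg ha.le _) (by
          rw [one_mul, ← e2, ← Real.exp_add]
          exact Real.exp_le_exp.2 (by linarith [hw.1]))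
      have e3 : a ^ (5 / 2 : ℝ) = a ^ 2 * a ^ (1 / 2 : ℝ) := by
        rw [← Real.rpow_natCast a 2, ← Real.rpow_add ha]; norm_num
      rw [e3]
      refine this.trans (le_of_eq ?_)
      ring
  · intro M
    set M' := max M 0 with hM'
    have hM0 : 0 ≤ M' := le_max_right _ _
    have hexp1 : (1:ℝ) ≤ Real.exp M' := Real.one_le_exp hM0
    refine ⟨5 / 3 * Real.exp M', by nlinarith, fun A => ?_⟩
    obtain ⟨X, hX⟩ := hd.2.2.2 M' (max A 0) hM0 (le_max_right _ _)
    refine ⟨Real.exp X, fun h a hh hH hD hA ha1 => ?_⟩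
    have ha : 0 < a := (Real.exp_pos _).trans_le hA
    have hy : 0 ≤ -Real.log a := by
      have := Real.log_nonpos ha.le ha1
      linarith
    have hyA : -Real.log a ≤ max A 0 := by
      have : -A ≤ Real.log a := (Real.le_log_iff_exp_le ha).2 hA
      exact (by linarith : -Real.log a ≤ A).trans (le_max_left _ _)
    have hx : X ≤ Real.log h := (Real.le_log_iff_exp_le hh).2 hH
    have hDx : dd (Real.log h) ≤ M' := le_trans hD (le_max_left _ _)
    have h1 := hX (Real.log h) (-Real.log a) hx hDx hy hyA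
    have h2 := hv.2.1 (dd (Real.log h - -Real.log a)) (-Real.log a) (hd.2.1 _) hy
    have h3 := abs_log_sub_le (m := 1) one_pos (by linarith [hd.2.1 (Real.log h - -Real.log a)])
      (by linarith) h1
    have h4 := hv.2.1 (dd (Real.log h)) 0 (hd.2.1 _) le_rfl
    have h5 : |dd (Real.log h) - 0| ≤ M' := by
      rw [sub_zero, abs_of_nonneg (hd.2.1 _)]; exact hDx
    have h6 := abs_log_sub_le (m := 1) one_pos (by linarith [hd.2.1 (Real.log h)])
      (by linarith) h5
    rw [hv.1, sub_zero] at h4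
    rw [div_one] at h3 h6
    have h7 : |ww (Real.log (a * h)) - (vv (-Real.log a) + ww (Real.log h))| ≤ M' := by
      rw [logmul hh ha]
      unfold ww
      have e1 : vv (dd (Real.log h - -Real.log a)) - (vv (-Real.log a) + vv (dd (Real.log h))) =
        (vv (dd (Real.log h - -Real.log a)) - vv (-Real.log a)) - vv (dd (Real.log h)) := by ring
      rw [e1]
      have e2 := abs_sub (vv (dd (Real.log h - -Real.log a)) - vv (-Real.log a))
        (vv (dd (Real.log h)))
      have e3 : |vv (dd (Real.log h - -Real.log a)) - vv (-Real.log a)| ≤ M' / 2 := by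
        refine h2.trans ?_
        linarith [h3]
      have e4 : |vv (dd (Real.log h))| ≤ M' / 2 := by
        refine h4.trans ((mul_le_mul_of_nonneg_left h6 (by norm_num)).trans ?_)
        linarith
      refine e2.trans ?_
      linarith [e3, e4]
    rw [abs_le] at h7
    have hF : F0 a = a ^ 2 * Real.exp (vv (-Real.log a)) := by
      unfold F0
      rw [max_eq_right hy]
    rw [hF]
    constructor
    · have := up hp (C := Real.exp M') (G := Real.exp (vv (-Real.log a))) hh ha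
        (Real.exp_pos _).le (Real.exp_pos _).le (by
          rw [← Real.exp_add, ← Real.exp_add]
          exact Real.exp_le_exp.2 (by linarith [h7.2]))
      refine this.trans (le_of_eq ?_)
      ring
    · have := dn hp (C := Real.exp M') (G := Real.exp (vv (-Real.log a))) hh ha
        (Real.exp_pos _).le (Real.exp_pos _).le (by
          rw [← Real.exp_add, ← Real.exp_add]
          exact Real.exp_le_exp.2 (by linarith [h7.1]))
      exact this
  · have hexp1 : (1:ℝ) ≤ Real.exp 1 := Real.one_le_exp zero_le_one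
    refine ⟨5 / 3 * Real.exp 1, by nlinarith, fun A => ⟨2 * max A 0, fun h a hh hM hA ha1 => ?_⟩⟩
    set A' := max A 0 with hA'
    have hA0 : 0 ≤ A' := le_max_right _ _
    have ha : 0 < a := (Real.exp_pos _).trans_le hA
    have hy : 0 ≤ -Real.log a := by
      have := Real.log_nonpos ha.le ha1
      linarith
    have hyA : -Real.log a ≤ A' := by
      have : -A ≤ Real.log a := (Real.le_log_iff_exp_le ha).2 hA
      exact (by linarith : -Real.log a ≤ A).trans (le_max_left _ _)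
    have h2 : |dd (Real.log h - -Real.log a) - dd (Real.log h)| ≤ A' := by
      refine (hd.1 _ _).trans ?_
      rw [show Real.log h - -Real.log a - Real.log h = -(-Real.log a) by ring, abs_neg,
        abs_of_nonneg hy]
      exact hyA
    have hD : 2 * A' ≤ dd (Real.log h) := hM
    have h3 := abs_log_sub_le (m := 1 + A') (by linarith)
      (u := dd (Real.log h - -Real.log a)) (v := dd (Real.log h))
      (by
        have := (abs_le.1 h2).1
        linarith)
      (by linarith) h2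
    have h4 : A' / (1 + A') ≤ 1 := (div_le_one (by linarith)).2 (by linarith)
    have h5 := hv.2.1 (dd (Real.log h - -Real.log a)) (dd (Real.log h)) (hd.2.1 _) (hd.2.1 _)
    have h7 : |ww (Real.log (a * h)) - ww (Real.log h)| ≤ 1 := by
      rw [logmul hh ha]
      unfold ww
      linarith
    rw [abs_le] at h7
    constructor
    · have := up hp (C := Real.exp 1) (G := 1) hh ha
        (Real.exp_pos _).le zero_le_one (by
          rw [mul_one, ← Real.exp_add]
          exact Real.exp_le_exp.2 (by linarith [h7.2]))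
      refine this.trans (le_of_eq ?_)
      ring
    · have := dn hp (C := Real.exp 1) (G := 1) hh ha
        (Real.exp_pos _).le zero_le_one (by
          rw [one_mul, ← Real.exp_add]
          exact Real.exp_le_exp.2 (by linarith [h7.1]))
      rw [mul_one] at this
      exact this
  · intro H
    obtain ⟨k, hk⟩ := pow_unbounded_of_one_lt H (by norm_num : (1:ℝ) < 4)
    refine ⟨Real.exp (4 ^ (k + 1)), ?_, Real.exp_pos _, ?_⟩
    · have h1 : (4:ℝ) ^ k ≤ 4 ^ (k + 1) := pow_le_pow_right₀ (by norm_num) (by omega)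
      have h2 := Real.add_one_le_exp ((4:ℝ) ^ (k + 1))
      linarith
    · unfold D0
      rw [Real.log_exp, hd.2.2.1 k]


open Pool.Agent.T6.H48.KP.ModNDH in
/-- Normalized disjoint indicators of given heights (construction of the library module `NDH`). -/
theorem exists_seq {Φ : OrliczFun} {F D : ℝ → ℝ} (hKD : KD Φ F D) (h : ℕ → ℝ)
    (hpos : ∀ k, 0 < h k) (hbig : ∀ k, (2 : ℝ) ^ (k + 1) ≤ Φ.φ (h k)) :
    ∃ (u : ℕ → LPhi Φ) (A : ℕ → Set ℝ), (∀ k, ‖u k‖ = 1) ∧ DisjSeq u ∧
      ∀ k, (u k).fn =ᵐ[mu] (A k).indicator (fun _ => h k) := by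
  set w : ℕ → ℝ := fun k => 1 / Φ.φ (h k) with hwdef
  have hφpos : ∀ k, 0 < Φ.φ (h k) := fun k => hKD.pos _ (hpos k)
  have hw : ∀ k, 0 ≤ w k ∧ w k ≤ (1 / 2 : ℝ) ^ (k + 1) := by
    intro k
    refine ⟨(one_div_pos.2 (hφpos k)).le, ?_⟩
    have : (1 / 2 : ℝ) ^ (k + 1) = 1 / (2 : ℝ) ^ (k + 1) := by rw [one_div_pow]
    rw [this]
    exact one_div_le_one_div_of_le (by positivity) (hbig k)
  have hAm : ∀ k, MeasurableSet (AA w k) := fun k => measurableSet_Ioc
  have hI : ∀ (k : ℕ) (a : ℝ), 0 ≤ a → Φ.I (fun x => a * (AA w k).indicator (fun _ => h k) x) =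
      ENNReal.ofReal (Φ.φ (a * h k) * w k) := fun k a ha =>
    I_ind Φ (hAm k) (mu_AA hw k) (hpos k).le ha
  set u : ℕ → LPhi Φ := fun k => LPhi.ofFn Φ ((AA w k).indicator (fun _ => h k)) with hudef
  have hu : ∀ k, (u k).fn =ᵐ[mu] (AA w k).indicator (fun _ => h k) := by
    intro k
    refine LPhi.fn_ofFn (measurable_const.indicator (hAm k)).aestronglyMeasurable ⟨1, one_pos, ?_⟩
    rw [hI k _ (by norm_num)]
    exact ENNReal.ofReal_lt_top
  have hIu : ∀ (k : ℕ) (a : ℝ), 0 ≤ a → Φ.I (fun x => a * (u k).fn x) =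
      ENNReal.ofReal (Φ.φ (a * h k) * w k) := by
    intro k a ha
    rw [← hI k a ha]
    refine Φ.I_congr ?_
    filter_upwards [hu k] with x hx
    rw [hx]
  have hnorm : ∀ k, ‖u k‖ = 1 := by
    intro k
    apply le_antisymm
    · rw [LPhi.norm_le_iff _ one_pos, hIu k _ (by norm_num), inv_one, one_mul, hwdef]
      simp only
      rw [mul_one_div_cancel (hφpos k).ne', ENNReal.ofReal_one]
    · by_contra hcon
      rw [not_le] at hcon
      set s : ℝ := max ‖u k‖ (1 / 2) with hs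
      have hs0 : 0 < s := lt_of_lt_of_le (by norm_num) (le_max_right _ _)
      have hs1 : s < 1 := max_lt hcon (by norm_num)
      have h1 := (LPhi.norm_le_iff (u k) hs0).1 (le_max_left _ _)
      rw [hIu k _ (inv_nonneg.2 hs0.le), ← ENNReal.ofReal_one,
        ENNReal.ofReal_le_ofReal_iff zero_le_one] at h1
      have h2 : Φ.φ (s⁻¹ * h k) ≤ Φ.φ (h k) := by
        rw [hwdef] at h1
        simp only at h1
        rwa [mul_one_div, div_le_one (hφpos k)] at h1
      have hpos2 : 0 < Φ.φ (s⁻¹ * h k) := hKD.pos _ (mul_pos (inv_pos.2 hs0) (hpos k))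
      have h3 := Φ.scale_le (x := s⁻¹ * h k) (a := s)
        (mul_pos (inv_pos.2 hs0) (hpos k)).le hs0.le hs1.le
      rw [← mul_assoc, mul_inv_cancel₀ hs0.ne', one_mul] at h3
      have h4 : s * Φ.φ (s⁻¹ * h k) < 1 * Φ.φ (s⁻¹ * h k) := mul_lt_mul_of_pos_right hs1 hpos2
      linarith
  have hdisj : DisjSeq u := by
    intro m n hmn
    unfold Disj
    filter_upwards [hu m, hu n] with x hm hn
    by_cases h1 : x ∈ AA w m
    · right
      rw [hn, indicator_of_notMem]
      intro h2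
      rcases lt_or_gt_of_ne hmn with h3 | h3
      · exact AA_disj hw h3 h1 h2
      · exact AA_disj hw h3 h2 h1
    · left
      rw [hm, indicator_of_notMem h1]
  exact ⟨u, AA w, hnorm, hdisj, hu⟩

/-- There are flat heights above every bound. -/
theorem flats (k H : ℝ) : ∃ h : ℝ, H ≤ h ∧ 0 < h ∧ k < D0 h := by
  obtain ⟨j, hj⟩ := pow_unbounded_of_one_lt (max H k) (by norm_num : (1:ℝ) < 4)
  have hH : H < 4 ^ j := (le_max_left _ _).trans_lt hj
  have hk : k < 4 ^ j := (le_max_right _ _).trans_lt hj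
  have h4 : (1 : ℝ) ≤ 4 ^ j := one_le_pow₀ (by norm_num)
  refine ⟨Real.exp (10 * 4 ^ j), ?_, Real.exp_pos _, ?_⟩
  · have h2 := Real.add_one_le_exp ((10 : ℝ) * 4 ^ j)
    linarith
  · unfold D0 dd
    rw [Real.log_exp]
    have h1 : (6 : ℝ) * 4 ^ j ≤ Metric.infDist ((10 : ℝ) * 4 ^ j)
        (range fun k : ℕ => (4 : ℝ) ^ (k + 1)) := by
      rw [Metric.le_infDist (range_nonempty _)]
      rintro _ ⟨i, rfl⟩
      simp only
      rw [Real.dist_eq]
      rcases Nat.lt_or_ge j i with h | h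
      · have h5 : (4 : ℝ) ^ (j + 2) ≤ 4 ^ (i + 1) := pow_le_pow_right₀ (by norm_num) (by omega)
        have h6 : (4 : ℝ) ^ (j + 2) = 16 * 4 ^ j := by ring
        rw [abs_of_nonpos (by linarith)]
        linarith
      · have h5 : (4 : ℝ) ^ (i + 1) ≤ 4 ^ (j + 1) := pow_le_pow_right₀ (by norm_num) (by omega)
        have h6 : (4 : ℝ) ^ (j + 1) = 4 * 4 ^ j := by ring
        rw [abs_of_nonneg (by linarith)]
        linarith
    linarith

section Seq

variable {E : Type*} [NormedAddCommGroup E] [NormedSpace ℝ E]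

/-- Sums over a subsequence. -/
theorem sum_sub (x : ℕ → E) {κ : ℕ → ℕ} (hκ : Function.Injective κ) (s : Finset ℕ) (a : ℕ → ℝ) :
    ∃ (t : Finset ℕ) (b : ℕ → ℝ), ∑ k ∈ s, a k • x (κ k) = ∑ k ∈ t, b k • x k ∧
      ∀ Ξ : ℝ → ℝ, ∑ k ∈ s, Ξ (a k) = ∑ k ∈ t, Ξ (b k) := by
  classical
  refine ⟨s.image κ, fun n => if h : ∃ k, κ k = n then a h.choose else 0, ?_, fun Ξ => ?_⟩
  all_goals
    rw [Finset.sum_image fun _ _ _ _ h => hκ h]
    refine Finset.sum_congr rfl fun k _ => ?_
    have h : ∃ k', κ k' = κ k := ⟨k, rfl⟩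
    have h' : h.choose = k := hκ h.choose_spec
    simp only [dif_pos h, h']

theorem upper_sub {x : ℕ → E} (h : Upper sq x) {κ : ℕ → ℕ} (hκ : Function.Injective κ) :
    Upper sq fun k => x (κ k) := by
  obtain ⟨K, hK, h1⟩ := h
  refine ⟨K, hK, fun s a ha => ?_⟩
  obtain ⟨t, b, h2, h3⟩ := sum_sub x hκ s a
  rw [h2]
  refine h1 t b ?_
  rw [← h3 fun r => sq |r|]
  exact ha

theorem equiv_of {x : ℕ → E} (hu : Upper sq x) (hl : Lower sq x) :
    KatoNotTwoDH.EquivL2 x := by
  obtain ⟨K, hK, h1⟩ := hu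
  obtain ⟨L, hL, h2⟩ := hl
  have e1 : ∀ r : ℝ, Pool.Agent.T6.H48.KP.sq |r| = r ^ 2 := fun r => by
    unfold Pool.Agent.T6.H48.KP.sq; exact sq_abs r
  simp only [e1] at h1 h2
  have up : ∀ (s : Finset ℕ) (a : ℕ → ℝ), ‖∑ n ∈ s, a n • x n‖ ≤ K * √(∑ n ∈ s, a n ^ 2) := by
    intro s a
    have hS : 0 ≤ ∑ n ∈ s, a n ^ 2 := Finset.sum_nonneg fun n _ => sq_nonneg _
    rcases hS.eq_or_lt with h0 | h0
    · have h3 : ∀ n ∈ s, a n = 0 := fun n hn => by
        have := (Finset.sum_eq_zero_iff_of_nonneg fun n _ => sq_nonneg (a n)).1 h0.symm n hn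
        exact pow_eq_zero_iff (two_ne_zero) |>.1 this
      rw [Finset.sum_congr rfl fun n hn => by rw [h3 n hn, zero_smul], ← h0]
      simp
    · set σ := √(∑ n ∈ s, a n ^ 2) with hσ
      have hσ0 : 0 < σ := Real.sqrt_pos.2 h0
      have h3 := h1 s (fun n => σ⁻¹ * a n) (by
        simp only [mul_pow]
        rw [← Finset.mul_sum, inv_pow, Real.sq_sqrt hS, inv_mul_cancel₀ h0.ne'])
      have h4 : ∑ n ∈ s, (σ⁻¹ * a n) • x n = σ⁻¹ • ∑ n ∈ s, a n • x n := by
        rw [Finset.smul_sum]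
        exact Finset.sum_congr rfl fun n _ => by rw [mul_smul]
      rw [h4, norm_smul, Real.norm_of_nonneg (inv_nonneg.2 hσ0.le), inv_mul_le_iff₀ hσ0] at h3
      linarith
  have lo : ∀ (s : Finset ℕ) (a : ℕ → ℝ), √(∑ n ∈ s, a n ^ 2) ≤ √L * ‖∑ n ∈ s, a n • x n‖ := by
    intro s a
    have hS : 0 ≤ ∑ n ∈ s, a n ^ 2 := Finset.sum_nonneg fun n _ => sq_nonneg _
    have key : ∀ t : ℝ, 0 < t → t * ‖∑ n ∈ s, a n • x n‖ ≤ 1 →
        t ^ 2 * ∑ n ∈ s, a n ^ 2 ≤ L := by
      intro t ht h3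
      have h4 := h2 s (fun n => t * a n) (by
        have h4 : ∑ n ∈ s, (t * a n) • x n = t • ∑ n ∈ s, a n • x n := by
          rw [Finset.smul_sum]
          exact Finset.sum_congr rfl fun n _ => by rw [mul_smul]
        rw [h4, norm_smul, Real.norm_of_nonneg ht.le]
        exact h3)
      simp only [mul_pow] at h4
      rwa [← Finset.mul_sum] at h4
    rcases (norm_nonneg (∑ n ∈ s, a n • x n)).eq_or_lt with h0 | h0
    · have h5 : ∑ n ∈ s, a n ^ 2 = 0 := by
        by_contra hne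
        have hpos : 0 < ∑ n ∈ s, a n ^ 2 := lt_of_le_of_ne hS (Ne.symm hne)
        have h6 := key (√((L + 1) / ∑ n ∈ s, a n ^ 2)) (Real.sqrt_pos.2 (by positivity))
          (by rw [← h0, mul_zero]; exact zero_le_one)
        rw [Real.sq_sqrt (by positivity), div_mul_cancel₀ _ hpos.ne'] at h6
        linarith
      rw [h5, ← h0]
      simp
    · have h6 := key (‖∑ n ∈ s, a n • x n‖⁻¹) (inv_pos.2 h0) (by rw [inv_mul_cancel₀ h0.ne'])
      rw [inv_pow, inv_mul_le_iff₀ (by positivity)] at h6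
      calc √(∑ n ∈ s, a n ^ 2) ≤ √(‖∑ n ∈ s, a n • x n‖ ^ 2 * L) := Real.sqrt_le_sqrt h6
        _ = √L * ‖∑ n ∈ s, a n • x n‖ := by
            rw [Real.sqrt_mul (by positivity), Real.sqrt_sq h0.le, mul_comm]
  have hL0 : 0 < √L := Real.sqrt_pos.2 hL
  refine ⟨max K (√L), lt_max_of_lt_left hK, fun s a => ⟨?_, ?_⟩⟩
  · rw [inv_mul_le_iff₀ (lt_max_of_lt_left hK)]
    exact (lo s a).trans (mul_le_mul_of_nonneg_right (le_max_right _ _) (norm_nonneg _))
  · exact (up s a).trans (mul_le_mul_of_nonneg_right (le_max_left _ _) (Real.sqrt_nonneg _))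

end Seq

/-- The sequences `x` and `y` are equivalent. -/
def EquivSeq {E : Type*} [NormedAddCommGroup E] [NormedSpace ℝ E] (x y : ℕ → E) : Prop :=
  ∃ C : ℝ, 0 < C ∧ ∀ (s : Finset ℕ) (a : ℕ → ℝ),
    C⁻¹ * ‖∑ n ∈ s, a n • y n‖ ≤ ‖∑ n ∈ s, a n • x n‖ ∧
      ‖∑ n ∈ s, a n • x n‖ ≤ C * ‖∑ n ∈ s, a n • y n‖

/-- A normalized sequence of pairwise disjoint elements. -/
def NormDisj {Φ : OrliczFun} (x : ℕ → LPhi Φ) : Prop :=
  (∀ n, ‖x n‖ = 1) ∧ ∀ m n, m ≠ n → ∀ᵐ t ∂mu, (x m).fn t = 0 ∨ (x n).fn t = 0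

/-- `L_φ[0,1]` is disjointly homogeneous: any two normalized sequences of pairwise disjoint
elements have equivalent subsequences (the two subsequences may be chosen independently). -/
def DisjHomogeneous (Φ : OrliczFun) : Prop :=
  ∀ x y : ℕ → LPhi Φ, NormDisj x → NormDisj y →
    ∃ κ κ' : ℕ → ℕ, StrictMono κ ∧ StrictMono κ' ∧ EquivSeq (fun n => x (κ n)) fun n => y (κ' n)

/-- **Theorem.** There is an Orlicz function `φ` such that the Banach space `L_φ[0,1]` has the Kato
property, is not 2-DH, contains a normalized sequence of pairwise disjoint elements which is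
equivalent to the unit vector basis of `ℓ_2`, and is not disjointly homogeneous. -/
theorem result : ∃ Φ : OrliczFun, CompleteSpace (LPhi Φ) ∧
    KatoNotTwoDH.KatoProperty (LPhi Φ) ∧ ¬ KatoNotTwoDH.TwoDH Φ ∧
    (∃ u : ℕ → LPhi Φ, NormDisj u ∧ KatoNotTwoDH.EquivL2 u) ∧ ¬ DisjHomogeneous Φ := by
  have hTT : StmBDDS := mBDDS mHOLD (mEXTR mHOLD) mEXTB mMOM4 mFOUR
  have hD : StmDISJ := mDISJ mABSC
  have hW : StmWNUL := mWNUL mHOLD (mUP32 mDSUM)
  have hS : StmSRCE := mSRCE mCOMPL mSEPA (mSPLI mCOMPL mTOTB) hTT hD mCASE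
    (mSRCF mMODN mDSUM) (mSRCS mMODN mDSUM) hW
  have hT : StmTARG := mTARG (mTGTL mHOLD mEXTB mMOM4) (mTGTD mHOLD hD) mCASE
    (mTGTF mMODN mDSUM) (mTGTS mMODN mDSUM) mPERT mDSUM
  have hK : StmKATO := mKATO hS hT mISOM mCONT
  have hN : StmNDH := mNDH mDSUM
  have hP : StmPHIB := mPHIB mVV mDDIS
  obtain ⟨Φ, hKD⟩ := exKD mVV mDDIS hP (mF0G mVV)
  have hTDH : ¬ KatoNotTwoDH.TwoDH Φ := hN Φ F0 D0 hKD
  -- the flat sequence
  have hex : ∀ k : ℕ, ∃ h : ℝ, 0 < h ∧ (k : ℝ) < D0 h ∧ (2 : ℝ) ^ (k + 1) ≤ Φ.φ h := by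
    intro k
    obtain ⟨T, _, hT'⟩ := Φ.exists_large ((2 : ℝ) ^ (k + 1))
    obtain ⟨h, h1, h2, h3⟩ := flats k T
    exact ⟨h, h2, h3, hT' h h1⟩
  choose h hpos hflat hbig using hex
  obtain ⟨u0, A, hn0, hd0, hu0⟩ := exists_seq hKD h hpos hbig
  have hfl0 : Flat D0 u0 := by
    intro k
    filter_upwards [hu0 k] with x hx
    rw [hx]
    by_cases hxA : x ∈ A k
    · right
      rw [indicator_of_mem hxA, abs_of_pos (hpos k)]
      exact hflat k
    · left
      rw [indicator_of_notMem hxA]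
  obtain ⟨κ, hκ, hup⟩ := mSRCS mMODN mDSUM Φ F0 D0 hKD u0 1 (fun n => (hn0 n).le) hd0 hfl0
  have hd1 : DisjSeq fun j => u0 (κ j) := fun m n hmn => hd0 _ _ fun e => hmn (hκ.injective e)
  have hfl1 : Flat D0 fun j => u0 (κ j) := by
    intro k
    filter_upwards [hfl0 (κ k)] with x hx
    rcases hx with hx | hx
    · exact Or.inl hx
    · refine Or.inr (lt_of_le_of_lt ?_ hx)
      exact_mod_cast hκ.id_le k
  obtain ⟨κ', hκ', hlo⟩ := mTGTS mMODN mDSUM Φ F0 D0 hKD (fun j => u0 (κ j)) 1 one_pos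
    (fun n => (hn0 _).ge) hd1 hfl1
  set u : ℕ → LPhi Φ := fun j => u0 (κ (κ' j)) with hu
  have hequ : KatoNotTwoDH.EquivL2 u := equiv_of (upper_sub hup hκ'.injective) hlo
  have hnu : NormDisj u := ⟨fun n => hn0 _, fun m n hmn =>
    hd0 _ _ fun e => hmn (hκ'.injective (hκ.injective e))⟩
  refine ⟨Φ, mCOMPL Φ, hK Φ F0 D0 hKD, hTDH, ⟨u, hnu, hequ⟩, fun hDH => hTDH ?_⟩
  intro x hx1 hx2
  obtain ⟨ι, ι', hι, hι', C, hC, hE⟩ := hDH x u ⟨hx1, hx2⟩ hnu
  obtain ⟨B, hB, hB'⟩ := hequ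
  refine ⟨ι, hι, C * B, by positivity, fun s a => ?_⟩
  obtain ⟨t, b, h2, h3⟩ := sum_sub u hι'.injective s a
  have h4 := hE s a
  simp only at h4
  rw [h2] at h4
  have h5 := hB' t b
  rw [← h3 fun r => r ^ 2] at h5
  constructor
  · rw [mul_inv, mul_assoc]
    exact (mul_le_mul_of_nonneg_left h5.1 (inv_nonneg.2 hC.le)).trans h4.1
  · rw [mul_assoc]
    exact h4.2.trans (mul_le_mul_of_nonneg_left h5.2 hC.le)

end Pool.Agent.Results.MP_8301f5_an.KatoNotDH
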